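import Pool.Agent.KACR.Stmts

/-!
# BCO: the bad levels are countable
-/

set_option autoImplicit false

namespace Pool.Agent.KACR.H84

open Pool.Agent.KACR Set Filter Topology

theorem countable_of_isolated {X : Type} [TopologicalSpace X] [SecondCountableTopology X]
    (S : Set X) (h : ∀ x ∈ S, ∀ᶠ y in 𝓝 x, y ∈ S → y = x) : S.Countable := by
  obtain ⟨t, -, htc, hcov⟩ := TopologicalSpace.countable_cover_nhdsWithin (s := S)
    (f := fun x => {y | y ∈ S → y = x}) (fun x hx => mem_nhdsWithin_of_mem_nhds (h x hx))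
  refine htc.mono ?_
  intro y hy
  obtain ⟨x, hx, hyx⟩ := mem_iUnion₂.mp (hcov hy)
  have h1 : y = x := hyx hy
  rw [h1]
  exact hx

theorem gen_d1 {L : ℝ} {k : ℝ → ℝ} (hk : Gen L k) (s : ℝ) : HasDerivAt k (deriv k s) s :=
  ((contDiff_infty_iff_deriv.mp hk.smooth).1 s).hasDerivAt

theorem gen_d2 {L : ℝ} {k : ℝ → ℝ} (hk : Gen L k) (s : ℝ) :
    HasDerivAt (deriv k) (deriv (deriv k) s) s :=
  ((contDiff_infty_iff_deriv.mp (contDiff_infty_iff_deriv.mp hk.smooth).2).1 s).hasDerivAt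

theorem crit_countable {L : ℝ} {k : ℝ → ℝ} (hk : Gen L k) : {s | deriv k s = 0}.Countable := by
  apply countable_of_isolated
  intro s hs
  have h1 := (gen_d2 hk s).eventually_ne (c := 0) (hk.nondeg s hs)
  rw [eventually_nhdsWithin_iff] at h1
  filter_upwards [h1] with y hy hyS
  by_contra hne
  exact hy hne hyS

theorem pairs_countable {L : ℝ} {k : ℝ → ℝ} (hk : Gen L k) :
    {q : ℝ × ℝ | ¬ EqMod L q.1 q.2 ∧ k q.1 = k q.2 ∧ deriv k q.1 ^ 2 = deriv k q.2 ^ 2 ∧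
      deriv k q.1 ≠ 0}.Countable := by
  apply countable_of_isolated
  rintro ⟨s, t⟩ ⟨h1, h2, h3, h4⟩
  simp only at h1 h2 h3 h4
  set A : ℝ := deriv k s with hA
  set B : ℝ := deriv k t with hB
  set a : ℝ := deriv (deriv k) s with ha
  set b : ℝ := deriv (deriv k) t with hb
  have hB0 : B ≠ 0 := by
    intro h0
    rw [h0] at h3
    exact h4 (pow_eq_zero_iff (two_ne_zero)|>.mp (by rw [h3]; ring))
  have hab : a ≠ b := fun h => h1 (hk.inj s t h2 h3 h)
  have f1 : HasFDerivAt (fun q : ℝ × ℝ => k q.1) (A • ContinuousLinearMap.fst ℝ ℝ ℝ) (s, t) :=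
    (gen_d1 hk s).comp_hasFDerivAt (s, t) hasFDerivAt_fst
  have f2 : HasFDerivAt (fun q : ℝ × ℝ => k q.2) (B • ContinuousLinearMap.snd ℝ ℝ ℝ) (s, t) :=
    (gen_d1 hk t).comp_hasFDerivAt (s, t) hasFDerivAt_snd
  have g1 : HasFDerivAt (fun q : ℝ × ℝ => deriv k q.1 ^ 2)
      ((2 * A * a) • ContinuousLinearMap.fst ℝ ℝ ℝ) (s, t) := by
    have e : HasDerivAt (fun x => deriv k x ^ 2) (2 * A * a) s := by
      refine HasDerivAt.congr_deriv (f := fun x => deriv k x ^ 2) ((gen_d2 hk s).pow 2) ?_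
      simp [hA, ha]
    exact HasDerivAt.comp_hasFDerivAt (f := Prod.fst) (s, t) e hasFDerivAt_fst
  have g2 : HasFDerivAt (fun q : ℝ × ℝ => deriv k q.2 ^ 2)
      ((2 * B * b) • ContinuousLinearMap.snd ℝ ℝ ℝ) (s, t) := by
    have e : HasDerivAt (fun x => deriv k x ^ 2) (2 * B * b) t := by
      refine HasDerivAt.congr_deriv (f := fun x => deriv k x ^ 2) ((gen_d2 hk t).pow 2) ?_
      simp [hB, hb]
    exact HasDerivAt.comp_hasFDerivAt (f := Prod.snd) (s, t) e hasFDerivAt_snd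
  have hF := (f1.sub f2).prodMk (g1.sub g2)
  set F' : ℝ × ℝ →L[ℝ] ℝ × ℝ :=
    (A • ContinuousLinearMap.fst ℝ ℝ ℝ - B • ContinuousLinearMap.snd ℝ ℝ ℝ).prod
      ((2 * A * a) • ContinuousLinearMap.fst ℝ ℝ ℝ - (2 * B * b) • ContinuousLinearMap.snd ℝ ℝ ℝ)
    with hF'
  have hker : LinearMap.ker (F' : ℝ × ℝ →ₗ[ℝ] ℝ × ℝ) = ⊥ := by
    rw [LinearMap.ker_eq_bot']
    rintro ⟨x, y⟩ hxy
    have e1 : A * x - B * y = 0 := by
      have := congrArg Prod.fst hxy
      simpa [hF'] using this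
    have e2 : 2 * A * a * x - 2 * B * b * y = 0 := by
      have := congrArg Prod.snd hxy
      simpa [hF'] using this
    have e3 : B * y * (a - b) = 0 := by
      linear_combination e2 / 2 - a * e1
    have hy : y = 0 := by
      rcases mul_eq_zero.mp e3 with h | h
      · exact (mul_eq_zero.mp h).resolve_left hB0
      · exact absurd (sub_eq_zero.mp h) hab
    have hx : x = 0 := by
      rw [hy, mul_zero, sub_zero] at e1
      exact (mul_eq_zero.mp e1).resolve_left h4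
    rw [hx, hy]
    rfl
  obtain ⟨K, -, hK⟩ := LinearMap.exists_antilipschitzWith (F' : ℝ × ℝ →ₗ[ℝ] ℝ × ℝ) hker
  have hev := hF.eventually_ne (c := (0, 0)) ⟨K, hK⟩
  rw [eventually_nhdsWithin_iff] at hev
  filter_upwards [hev] with q hq hqS
  by_contra hne
  apply hq hne
  obtain ⟨-, q2, q3, -⟩ := hqS
  simp [q2, q3]

theorem bco : BcoStmt := by
  intro L k hk
  have h1 : Bad L k ⊆ (k '' {s | deriv k s = 0}) ∪ ((fun q : ℝ × ℝ => k q.1) ''
      {q : ℝ × ℝ | ¬ EqMod L q.1 q.2 ∧ k q.1 = k q.2 ∧ deriv k q.1 ^ 2 = deriv k q.2 ^ 2 ∧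
      deriv k q.1 ≠ 0}) := by
    rintro c (hc | ⟨s, t, h1, h2, h3, h4⟩)
    · left
      have hc' : ¬ ∀ s, k s = c → deriv k s ≠ 0 := hc
      push Not at hc'
      obtain ⟨s, hs, hs'⟩ := hc'
      exact ⟨s, hs', hs⟩
    · by_cases h0 : deriv k s = 0
      · left
        exact ⟨s, h0, h2⟩
      · right
        exact ⟨(s, t), ⟨h1, h2.trans h3.symm, h4, h0⟩, h2⟩
  exact (((crit_countable hk).image k).union ((pairs_countable hk).image _)).mono h1

end Pool.Agent.KACR.H84
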