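import Pool.Agent.KACR.Stmts

/-!
# GLB: the reconstruction
-/

set_option autoImplicit false

namespace Pool.Agent.KACR.H84

open Pool.Agent.KACR Set Filter Topology

theorem glb_c {L : ℝ} {k : ℝ → ℝ} (hk : Gen L k) :
    Continuous k ∧ Continuous (deriv k) ∧ Continuous (deriv (deriv k)) := by
  have h1 := contDiff_infty_iff_deriv.mp hk.smooth
  have h2 := contDiff_infty_iff_deriv.mp h1.2
  exact ⟨hk.smooth.continuous, h1.2.continuous, h2.2.continuous⟩

theorem glb_d {L : ℝ} {k : ℝ → ℝ} (hk : Gen L k) (s : ℝ) : HasDerivAt k (deriv k s) s :=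
  ((contDiff_infty_iff_deriv.mp hk.smooth).1 s).hasDerivAt

theorem glb_closed {L : ℝ} {k k' : ℝ → ℝ} (hk : Gen L k) (hk' : Gen L k') (s₀ t₀ ε : ℝ) :
    IsClosed {s | SameJet k k' s (t₀ + ε * (s - s₀))} := by
  obtain ⟨c1, c2, c3⟩ := glb_c hk
  obtain ⟨d1, d2, d3⟩ := glb_c hk'
  have hl : Continuous fun s : ℝ => t₀ + ε * (s - s₀) := by fun_prop
  have e1 : IsClosed {s | k' (t₀ + ε * (s - s₀)) = k s} := isClosed_eq (d1.comp hl) c1
  have e2 : IsClosed {s | deriv k' (t₀ + ε * (s - s₀)) ^ 2 = deriv k s ^ 2} :=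
    isClosed_eq ((d2.comp hl).pow 2) (c2.pow 2)
  have e3 : IsClosed {s | deriv (deriv k') (t₀ + ε * (s - s₀)) = deriv (deriv k) s} :=
    isClosed_eq (d3.comp hl) c3
  exact e1.inter (e2.inter e3)

/-- the sign at the end of an interval -/
theorem glb_slope {L : ℝ} {k k' : ℝ → ℝ} (hk : Gen L k) (hk' : Gen L k') (s₀ t₀ ε x : ℝ)
    (hε : ε ^ 2 = 1) (hx : s₀ < x)
    (h : ∀ s, s₀ ≤ s → s ≤ x → k' (t₀ + ε * (s - s₀)) = k s) :
    deriv k' (t₀ + ε * (x - s₀)) = ε * deriv k x := by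
  have h1 : HasDerivAt (fun s : ℝ => t₀ + ε * (s - s₀)) ε x := by
    have := (((hasDerivAt_id x).sub_const s₀).const_mul ε).const_add t₀
    simpa using this
  have h2 : HasDerivAt (fun s : ℝ => k' (t₀ + ε * (s - s₀)))
      (deriv k' (t₀ + ε * (x - s₀)) * ε) x :=
    HasDerivAt.comp x (glb_d hk' (t₀ + ε * (x - s₀))) h1
  have h3 : HasDerivWithinAt (fun s : ℝ => k' (t₀ + ε * (s - s₀)))
      (deriv k' (t₀ + ε * (x - s₀)) * ε) (Icc s₀ x) x := h2.hasDerivWithinAt
  have h4 : HasDerivWithinAt (fun s : ℝ => k' (t₀ + ε * (s - s₀))) (deriv k x) (Icc s₀ x) x := by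
    refine (glb_d hk x).hasDerivWithinAt.congr_of_mem (fun s hs => h s hs.1 hs.2) ?_
    exact ⟨hx.le, le_refl x⟩
  have h5 : deriv k' (t₀ + ε * (x - s₀)) * ε = deriv k x :=
    (uniqueDiffOn_Icc hx x ⟨hx.le, le_refl x⟩).eq_deriv _ h3 h4
  rw [← h5]
  linear_combination (-(deriv k' (t₀ + ε * (x - s₀)))) * hε

theorem glb (hJET : JetStmt) (hRGP : RgpStmt) (hCRP : CrpStmt) : ReconStmt := by
  intro L k k' hk hk' hSL
  have hJ := hJET L k k' hk hk' hSL
  obtain ⟨s₀, hs₀⟩ : ∃ s, deriv k s ≠ 0 := by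
    by_contra hcon
    push Not at hcon
    have h1 : deriv k = fun _ => 0 := funext hcon
    apply hk.nondeg 0 (hcon 0)
    rw [h1]
    simp
  obtain ⟨t₀, ht₀⟩ := hJ s₀
  set ε : ℝ := deriv k' t₀ / deriv k s₀ with hεdef
  have hε : ε ^ 2 = 1 := by
    rw [hεdef, div_pow, ht₀.2.1]
    exact div_self (pow_ne_zero 2 hs₀)
  have hεt : deriv k' t₀ = ε * deriv k s₀ := by
    rw [hεdef]
    field_simp
  have hP0 : SameJet k k' s₀ (t₀ + ε * (s₀ - s₀)) := by
    have : t₀ + ε * (s₀ - s₀) = t₀ := by ring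
    rw [this]
    exact ht₀
  have hcl := glb_closed hk hk' s₀ t₀ ε
  have hall : ∀ s, s₀ ≤ s → SameJet k k' s (t₀ + ε * (s - s₀)) := by
    by_contra hcon
    push Not at hcon
    obtain ⟨y, hy1, hy2⟩ := hcon
    set T : Set ℝ := {y | s₀ ≤ y ∧ ¬ SameJet k k' y (t₀ + ε * (y - s₀))} with hT
    have hTne : T.Nonempty := ⟨y, hy1, hy2⟩
    have hTbd : BddBelow T := ⟨s₀, fun z hz => hz.1⟩
    set x : ℝ := sInf T with hx
    have hsx : s₀ ≤ x := le_csInf hTne fun z hz => hz.1
    have hbelow : ∀ s, s₀ ≤ s → s < x → SameJet k k' s (t₀ + ε * (s - s₀)) := by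
      intro s h1 h2
      by_contra h3
      exact absurd (csInf_le hTbd (show s ∈ T from ⟨h1, h3⟩)) (not_le.mpr h2)
    have hPx : SameJet k k' x (t₀ + ε * (x - s₀)) := by
      rcases hsx.eq_or_lt with h | h
      · rw [← h]
        exact hP0
      · have h1 : x ∈ closure (Ico s₀ x) := by
          rw [closure_Ico h.ne]
          exact ⟨hsx, le_refl x⟩
        exact hcl.closure_subset_iff.mpr (fun s hs => hbelow s hs.1 hs.2) h1
    have hext : ∃ δ : ℝ, 0 < δ ∧ ∀ s, x ≤ s → s < x + δ →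
        SameJet k k' s (t₀ + ε * (s - s₀)) := by
      have hre : ∀ s, t₀ + ε * (x - s₀) + ε * (s - x) = t₀ + ε * (s - s₀) := by
        intro s
        ring
      have hslope : deriv k' (t₀ + ε * (x - s₀)) = ε * deriv k x := by
        rcases hsx.eq_or_lt with h | h
        · rw [← h]
          have : t₀ + ε * (s₀ - s₀) = t₀ := by ring
          rw [this]
          exact hεt
        · apply glb_slope hk hk' s₀ t₀ ε x hε h
          intro s h1 h2
          rcases h2.eq_or_lt with h3 | h3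
          · rw [h3]; exact hPx.1
          · exact (hbelow s h1 h3).1
      by_cases h0 : deriv k x = 0
      · have hlt : s₀ < x := by
          rcases hsx.eq_or_lt with h | h
          · rw [← h] at h0
            exact absurd h0 hs₀
          · exact h
        obtain ⟨δ, hδ, hδ'⟩ := hCRP L k k' hk hk' hJ x (t₀ + ε * (x - s₀)) hPx ε hε h0 (x - s₀)
          (by linarith) (by
            intro s h1 h2
            rw [hre]
            rcases h2.eq_or_lt with h3 | h3
            · rw [h3]; exact hPx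
            · exact hbelow s (by linarith) h3)
        refine ⟨δ, hδ, fun s h1 h2 => ?_⟩
        rw [← hre]
        exact hδ' s h1 h2
      · obtain ⟨δ, hδ, hδ'⟩ := hRGP L k k' hk hk' hJ x (t₀ + ε * (x - s₀)) hPx ε hε hslope h0
        refine ⟨δ, hδ, fun s h1 h2 => ?_⟩
        rw [← hre]
        apply hδ'
        rw [abs_lt]
        constructor <;> linarith
    obtain ⟨δ, hδ, hδ'⟩ := hext
    have h1 : x + δ ≤ x := by
      refine le_csInf hTne fun z hz => ?_
      by_contra h2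
      push Not at h2
      exact hz.2 (hδ' z (csInf_le hTbd hz) h2)
    linarith
  have hper : Function.Periodic k L := hk.per
  have hper' : Function.Periodic k' L := hk'.per
  have hglob : ∀ s, k' (t₀ + ε * (s - s₀)) = k s := by
    intro s
    obtain ⟨n, hn⟩ := exists_nat_gt ((s₀ - s) / L)
    have hL := hk.pos
    have h1 : s₀ ≤ s + n * L := by
      rw [div_lt_iff₀ hL] at hn
      linarith
    have h2 := (hall (s + n * L) h1).1
    rw [(hper.nat_mul n) s] at h2
    rw [← h2]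
    rcases sq_eq_one_iff.mp hε with h3 | h3
    · rw [h3]
      have : t₀ + 1 * (s + n * L - s₀) = (t₀ + 1 * (s - s₀)) + n * L := by ring
      rw [this, (hper'.nat_mul n)]
    · rw [h3]
      have : t₀ + -1 * (s - s₀) = (t₀ + -1 * (s + n * L - s₀)) + n * L := by ring
      rw [this, (hper'.nat_mul n)]
  rcases sq_eq_one_iff.mp hε with h3 | h3
  · refine ⟨s₀ - t₀, Or.inl fun u => ?_⟩
    have := hglob (u + (s₀ - t₀))
    rw [← this, h3]
    congr 1
    ring
  · refine ⟨s₀ + t₀, Or.inr fun u => ?_⟩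
    have := hglob (s₀ + t₀ - u)
    rw [← this, h3]
    congr 1
    ring

end Pool.Agent.KACR.H84
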